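import Pool.Agent.K3h75.ND.Stm
import Pool.Agent.K3h66.TO.Ind

/-!
Brick JR of the project ND of helper75: the Jacobian criterion over a discrete valuation ring
(theorems `t_JR1` and `t_JR2`).
-/

set_option autoImplicit false

namespace Pool.Agent.K3h41.ND

open MvPolynomial IsLocalRing Pool.Agent.W418.LU2 Pool.Agent.K3h66.TO Pool.Agent.K3h75.ND

/-- Localization of a quotient: `A_q` is the quotient of `W_Q` by the equations. -/
theorem reg_of_quot {W A : Type} [CommRing W] [CommRing A] (pr : W →+* A)
    (hs : Function.Surjective pr) (q : Ideal A) [q.IsPrime] (S : Set W)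
    (hker : RingHom.ker pr = Ideal.span S)
    (h : IsRegularLocalRing (Localization.AtPrime (q.comap pr) ⧸
      Ideal.span ((algebraMap W (Localization.AtPrime (q.comap pr))) '' S))) :
    IsRegularLocalRing (Localization.AtPrime q) := by
  set Q := q.comap pr with hQ
  let Φ : Localization.AtPrime Q →+* Localization.AtPrime q := Localization.localRingHom Q q pr hQ
  have hΦs : Function.Surjective Φ := by
    intro y
    obtain ⟨b, s, rfl⟩ := IsLocalization.exists_mk'_eq q.primeCompl y
    obtain ⟨a, rfl⟩ := hs b
    obtain ⟨t, ht⟩ := hs s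
    have htQ : t ∈ Q.primeCompl := by
      intro h
      apply s.2
      rw [← ht]
      exact h
    refine ⟨IsLocalization.mk' _ a ⟨t, htQ⟩, ?_⟩
    change Localization.localRingHom Q q pr hQ _ = _
    rw [Localization.localRingHom_mk']
    congr 1
    exact Subtype.ext ht
  have hk : RingHom.ker Φ =
      Ideal.span ((algebraMap W (Localization.AtPrime Q)) '' S) := by
    rw [← Ideal.map_span, ← hker]
    apply le_antisymm
    · intro x hx
      obtain ⟨a, t, rfl⟩ := IsLocalization.exists_mk'_eq Q.primeCompl x
      have h3 : Localization.localRingHom Q q pr hQ (IsLocalization.mk' _ a t) = 0 := hx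
      rw [Localization.localRingHom_mk', IsLocalization.mk'_eq_zero_iff] at h3
      obtain ⟨m, hm⟩ := h3
      obtain ⟨m', hm'⟩ := hs m
      have hmQ : m' ∈ Q.primeCompl := by
        intro h
        apply m.2
        rw [← hm']
        exact h
      have h4 : m' * a ∈ RingHom.ker pr := by
        rw [RingHom.mem_ker, map_mul, hm']
        exact hm
      have h5 := Ideal.mem_map_of_mem (algebraMap W (Localization.AtPrime Q)) h4
      rw [map_mul, Ideal.unit_mul_mem_iff_mem _
        (IsLocalization.map_units (Localization.AtPrime Q) (⟨m', hmQ⟩ : Q.primeCompl))] at h5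
      rw [← Ideal.unit_mul_mem_iff_mem _ (IsLocalization.map_units (Localization.AtPrime Q) t),
        IsLocalization.mk'_spec']
      exact h5
    · rw [Ideal.map_le_iff_le_comap]
      intro x hx
      rw [Ideal.mem_comap, RingHom.mem_ker]
      change Localization.localRingHom Q q pr hQ _ = 0
      rw [Localization.localRingHom_to_map, (RingHom.mem_ker).1 hx, map_zero]
  have e : (Localization.AtPrime Q ⧸ Ideal.span ((algebraMap W (Localization.AtPrime Q)) '' S))
      ≃+* Localization.AtPrime q :=
    (Ideal.quotEquivOfEq hk.symm).trans (RingHom.quotientKerEquivOfSurjective hΦs)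
  exact IsRegularLocalRing.of_ringEquiv e

section main

variable {R A : Type} [CommRing R] [IsDomain R] [IsDiscreteValuationRing R] [CommRing A]

/-- The family `π, c` is independent in the localization. -/
theorem ind_fin {α : Type} [Fintype α] {π : R} (hπ : Irreducible π) {n : ℕ}
    (pr : MvPolynomial (Fin n) R →+* A) (c : α → MvPolynomial (Fin n) R)
    (hc : ∀ a, pr (c a) = 0) (q : Ideal A) [q.IsPrime] (hπq : pr (C π) ∈ q)
    (hJ : ∀ a : α → MvPolynomial (Fin n) R, (∀ i, pr (∑ l, a l * pderiv i (c l)) ∈ q) →
      ∀ l, pr (a l) ∈ q) :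
    Ind (fun a : Option α => algebraMap (MvPolynomial (Fin n) R)
      (Localization.AtPrime (q.comap pr)) (a.elim (C π) c)) := by
  have hm : maximalIdeal R = Ideal.span {π} := hπ.maximalIdeal_eq
  have hπm : π ∈ maximalIdeal R := by
    rw [hm]
    exact Ideal.mem_span_singleton_self π
  have hπ2 : π ∉ maximalIdeal R ^ 2 := by
    intro h
    rw [hm, Ideal.span_singleton_pow, Ideal.mem_span_singleton'] at h
    obtain ⟨r, hr⟩ := h
    apply hπ.not_isUnit
    have h1 : π * (r * π) = π * 1 := by
      rw [mul_one]
      calc π * (r * π) = r * π ^ 2 := by ring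
        _ = π := hr
    exact IsUnit.of_mul_eq_one r (by rw [mul_comm]; exact mul_left_cancel₀ hπ.ne_zero h1)
  have hcomap : (q.comap pr).comap (C : R →+* MvPolynomial (Fin n) R) = maximalIdeal R := by
    symm
    apply (maximalIdeal.isMaximal R).eq_of_le
    · exact Ideal.IsPrime.ne_top inferInstance
    · rw [hm, Ideal.span_singleton_le_iff_mem]
      exact hπq
  exact t_IND R n (q.comap pr) (maximalIdeal R) inferInstance
    (fun h => hπ.ne_zero (by rw [h] at hπm; exact hπm)) hcomap π hπm hπ2 α c
    (fun a => by
      rw [Ideal.mem_comap, hc]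
      exact Ideal.zero_mem _)
    (fun a ha l => hJ a (fun i => ha i) l)

theorem reg1_fin {α : Type} [Fintype α] {π : R} (hπ : Irreducible π) {n : ℕ}
    (pr : MvPolynomial (Fin n) R →+* A) (hs : Function.Surjective pr)
    (c : α → MvPolynomial (Fin n) R)
    (hker : RingHom.ker pr = Ideal.span (Set.range c)) (q : Ideal A) [q.IsPrime]
    (hπq : pr (C π) ∈ q)
    (hJ : ∀ a : α → MvPolynomial (Fin n) R, (∀ i, pr (∑ l, a l * pderiv i (c l)) ∈ q) →
      ∀ l, pr (a l) ∈ q) :
    IsRegularLocalRing (Localization.AtPrime q) := by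
  have hc : ∀ a, pr (c a) = 0 := fun a => by
    rw [← RingHom.mem_ker, hker]
    exact Ideal.subset_span ⟨a, rfl⟩
  have h1 := ind_fin hπ pr c hc q hπq hJ
  have h2 := h1.comp (κ := α) (fun a => some a) (Option.some_injective α)
  have h3 := h2.regular
  refine reg_of_quot pr hs q (Set.range c) hker ?_
  rw [← Set.range_comp]
  exact h3

theorem reg2_fin {α : Type} [Fintype α] {π : R} (hπ : Irreducible π) {n : ℕ}
    (pr : MvPolynomial (Fin n) R →+* A) (hs : Function.Surjective pr)
    (c : α → MvPolynomial (Fin n) R) (c₀ u : MvPolynomial (Fin n) R)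
    (hker : RingHom.ker pr = Ideal.span (insert c₀ (Set.range c))) (q : Ideal A) [q.IsPrime]
    (hπq : pr (C π) ∈ q)
    (hJ : ∀ a : α → MvPolynomial (Fin n) R, (∀ i, pr (∑ l, a l * pderiv i (c l)) ∈ q) →
      ∀ l, pr (a l) ∈ q) (hu : pr u ∉ q) (hc₀ : c₀ - u * C π ∈ (q.comap pr) ^ 2) :
    IsRegularLocalRing (Localization.AtPrime q) := by
  have hc : ∀ a, pr (c a) = 0 := fun a => by
    rw [← RingHom.mem_ker, hker]
    exact Ideal.subset_span (Set.mem_insert_of_mem _ ⟨a, rfl⟩)
  have hc0 : pr c₀ = 0 := by
    rw [← RingHom.mem_ker, hker]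
    exact Ideal.subset_span (Set.mem_insert _ _)
  have h1 := ind_fin hπ pr c hc q hπq hJ
  set Q := q.comap pr with hQ
  set φ := algebraMap (MvPolynomial (Fin n) R) (Localization.AtPrime Q) with hφ
  have hmem : ∀ x, φ x ∈ maximalIdeal (Localization.AtPrime Q) ↔ x ∈ Q := fun x =>
    IsLocalization.AtPrime.to_map_mem_maximal_iff (Localization.AtPrime Q) Q x
  have hm2 : φ (c₀ - u * C π) ∈ maximalIdeal (Localization.AtPrime Q) ^ 2 := by
    have h4 : maximalIdeal (Localization.AtPrime Q) ^ 2 = (Q ^ 2).map φ := by
      rw [Ideal.map_pow, hφ, Localization.AtPrime.map_eq_maximalIdeal]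
    rw [h4]
    exact Ideal.mem_map_of_mem φ hc₀
  have hind : Ind (fun a : Option α => φ (a.elim c₀ c)) := by
    refine ⟨?_, ?_⟩
    · rintro (_ | a)
      · change φ c₀ ∈ _
        rw [hmem, hQ, Ideal.mem_comap, hc0]
        exact Ideal.zero_mem _
      · exact h1.1 (some a)
    · intro b hb
      have h2 := h1.2 (fun a => a.elim (b none * φ u) (fun l => b (some l))) (by
        rw [Fintype.sum_option] at hb ⊢
        simp only [Option.elim_none, Option.elim_some] at hb ⊢
        have h3 : b none * φ u * φ (C π) + ∑ i, b (some i) * φ (c i) =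
            (b none * φ c₀ + ∑ i, b (some i) * φ (c i)) - b none * φ (c₀ - u * C π) := by
          rw [map_sub, map_mul]
          ring
        rw [h3]
        exact Ideal.sub_mem _ hb (Ideal.mul_mem_left _ _ hm2))
      rintro (_ | a)
      · have h3 : b none * φ u ∈ maximalIdeal (Localization.AtPrime Q) := h2 none
        rcases Ideal.IsPrime.mem_or_mem inferInstance h3 with h4 | h4
        · exact h4
        · exact absurd ((hmem u).1 h4) hu
      · exact h2 (some a)
  have h3 := hind.regular
  refine reg_of_quot pr hs q (insert c₀ (Set.range c)) hker ?_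
  have h4 : (algebraMap (MvPolynomial (Fin n) R) (Localization.AtPrime (q.comap pr))) ''
      (insert c₀ (Set.range c)) = Set.range (fun a : Option α => φ (a.elim c₀ c)) := by
    ext x
    constructor
    · rintro ⟨y, hy | ⟨l, rfl⟩, rfl⟩
      · exact ⟨none, by rw [hy]; rfl⟩
      · exact ⟨some l, rfl⟩
    · rintro ⟨_ | l, rfl⟩
      · exact ⟨c₀, Set.mem_insert _ _, rfl⟩
      · exact ⟨c l, Set.mem_insert_of_mem _ ⟨l, rfl⟩, rfl⟩
  rw [h4]
  exact h3

end main

section transport

variable {R σ A : Type} [CommRing R] [CommRing A]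

/-- The Jacobian condition after renaming the variables. -/
lemma jac_transport {α : Type} [Fintype α] {n : ℕ} (e : σ ≃ Fin n)
    (pr : MvPolynomial σ R →+* A) (c : α → MvPolynomial σ R) (q : Ideal A)
    (hJ : ∀ a : α → MvPolynomial σ R, (∀ i, pr (∑ l, a l * pderiv i (c l)) ∈ q) →
      ∀ l, pr (a l) ∈ q) (a : α → MvPolynomial (Fin n) R)
    (ha : ∀ i, (pr.comp (renameEquiv R e).symm.toRingEquiv.toRingHom)
      (∑ l, a l * pderiv i (rename e (c l))) ∈ q) (l : α) :
    (pr.comp (renameEquiv R e).symm.toRingEquiv.toRingHom) (a l) ∈ q := by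
  have h1 := hJ (fun l => rename e.symm (a l)) (fun i => by
    have h2 := ha (e i)
    have h3 : (pr.comp (renameEquiv R e).symm.toRingEquiv.toRingHom)
        (∑ l, a l * pderiv (e i) (rename e (c l))) =
        pr (∑ l, rename e.symm (a l) * pderiv i (c l)) := by
      change pr (rename e.symm (∑ l, a l * pderiv (e i) (rename e (c l)))) = _
      rw [map_sum]
      congr 1
      refine Finset.sum_congr rfl fun l _ => ?_
      rw [pderiv_rename e.injective, map_mul, rename_rename]
      congr 1
      rw [Equiv.symm_comp_self, rename_id]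
      rfl
    rw [h3] at h2
    exact h2) l
  exact h1

end transport

theorem t_JR1 : S_JR1 := by
  intro R σ α A _ _ _ _ _ _ π hπ pr hs c hker q _ hπq hJ
  classical
  let e : σ ≃ Fin (Fintype.card σ) := Fintype.equivFin σ
  let E : MvPolynomial (Fin (Fintype.card σ)) R ≃+* MvPolynomial σ R :=
    (renameEquiv R e).symm.toRingEquiv
  let pr' : MvPolynomial (Fin (Fintype.card σ)) R →+* A := pr.comp E.toRingHom
  have hE : ∀ x : MvPolynomial σ R, E (rename e x) = x := fun x => by
    change rename e.symm (rename e x) = x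
    rw [rename_rename, Equiv.symm_comp_self, rename_id]
    rfl
  have hE' : ∀ x, rename e (E x) = x := fun x => by
    change rename e (rename e.symm x) = x
    rw [rename_rename, Equiv.self_comp_symm, rename_id]
    rfl
  have hs' : Function.Surjective pr' := fun y => by
    obtain ⟨x, rfl⟩ := hs y
    exact ⟨rename e x, by change pr (E _) = _; rw [hE]⟩
  refine reg1_fin hπ pr' hs' (fun l => rename e (c l)) ?_ q ?_
    (jac_transport e pr c q hJ)
  · have h1 : RingHom.ker pr' = (RingHom.ker pr).comap E.toRingHom := rfl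
    rw [h1, hker]
    have h2 : Set.range (fun l => rename e (c l)) =
        (E.symm : MvPolynomial σ R →+* _) '' (Set.range c) := by
      rw [← Set.range_comp]
      rfl
    rw [h2, ← Ideal.map_span]
    exact (Ideal.map_symm (I := Ideal.span (Set.range c)) E).symm
  · change pr (E (C π)) ∈ q
    have : E (C π) = C π := by
      change rename e.symm (C π) = _
      rw [rename_C]
    rw [this]
    exact hπq

theorem t_JR2 : S_JR2 := by
  intro R σ α A _ _ _ _ _ _ π hπ pr hs c c₀ u hker q _ hπq hJ hu hc₀
  classical
  let e : σ ≃ Fin (Fintype.card σ) := Fintype.equivFin σ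
  let E : MvPolynomial (Fin (Fintype.card σ)) R ≃+* MvPolynomial σ R :=
    (renameEquiv R e).symm.toRingEquiv
  let pr' : MvPolynomial (Fin (Fintype.card σ)) R →+* A := pr.comp E.toRingHom
  have hE : ∀ x : MvPolynomial σ R, E (rename e x) = x := fun x => by
    change rename e.symm (rename e x) = x
    rw [rename_rename, Equiv.symm_comp_self, rename_id]
    rfl
  have hs' : Function.Surjective pr' := fun y => by
    obtain ⟨x, rfl⟩ := hs y
    exact ⟨rename e x, by change pr (E _) = _; rw [hE]⟩
  refine reg2_fin hπ pr' hs' (fun l => rename e (c l)) (rename e c₀) (rename e u) ?_ q ?_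
    (jac_transport e pr c q hJ) ?_ ?_
  · have h1 : RingHom.ker pr' = (RingHom.ker pr).comap E.toRingHom := rfl
    rw [h1, hker]
    have h2 : insert (rename e c₀) (Set.range (fun l => rename e (c l))) =
        (E.symm : MvPolynomial σ R →+* _) '' (insert c₀ (Set.range c)) := by
      rw [Set.image_insert_eq, ← Set.range_comp]
      rfl
    rw [h2, ← Ideal.map_span]
    exact (Ideal.map_symm (I := Ideal.span (insert c₀ (Set.range c))) E).symm
  · change pr (E (C π)) ∈ q
    have : E (C π) = C π := by
      change rename e.symm (C π) = _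
      rw [rename_C]
    rw [this]
    exact hπq
  · change pr (E (rename e u)) ∉ q
    rw [hE]
    exact hu
  · have h1 : rename e c₀ - rename e u * C π = rename e (c₀ - u * C π) := by
      rw [map_sub, map_mul, rename_C]
    rw [h1]
    have h2 : (Ideal.comap pr q) ^ 2 ≤ ((Ideal.comap pr' q) ^ 2).comap (rename e).toRingHom := by
      have h3 : Ideal.comap pr q ≤ (Ideal.comap pr' q).comap (rename e).toRingHom := by
        intro x hx
        change pr (E (rename e x)) ∈ q
        rw [hE]
        exact hx
      exact (Ideal.pow_right_mono h3 2).trans (Ideal.le_comap_pow _ 2)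
    exact h2 hc₀

end Pool.Agent.K3h41.ND
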