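import Pool.Agent.K3h75.ND.StmK

/-!
Bricks NRM1 and NRM2 of the project ND of helper75: norms of polynomials, in coordinates.
-/

set_option autoImplicit false

namespace Pool.Agent.K3h41.ND

open MvPolynomial Pool.Agent.K3h75.ND

section general

/-- A nonzero integral element of a domain has a nonzero multiple in the base. -/
theorem exists_mult {S T : Type} [CommRing S] [Nontrivial S] [CommRing T] [IsDomain T]
    (f : S →+* T) (x : T) (hx : x ≠ 0) (hi : f.IsIntegralElem x) :
    ∃ s : S, s ≠ 0 ∧ ∃ t : T, f s = t * x := by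
  letI : Algebra S T := f.toAlgebra
  have h1 : (Ideal.span {x}).comap (algebraMap S T) ≠ ⊥ :=
    Ideal.comap_ne_bot_of_integral_mem hx (Ideal.mem_span_singleton_self x) hi
  obtain ⟨s, hs, hs0⟩ := Submodule.exists_mem_ne_zero_of_ne_bot h1
  obtain ⟨t, ht⟩ := Ideal.mem_span_singleton'.1 (Ideal.mem_comap.1 hs)
  exact ⟨s, hs0, t, ht.symm⟩

/-- Transitivity of integrality. -/
theorem trans_elem {R A B : Type} [CommRing R] [CommRing A] [CommRing B] (f : R →+* A)
    (g : A →+* B) (hf : f.IsIntegral) (x : B) (hx : g.IsIntegralElem x) :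
    (g.comp f).IsIntegralElem x := by
  letI : Algebra R A := f.toAlgebra
  letI : Algebra A B := g.toAlgebra
  letI : Algebra R B := (g.comp f).toAlgebra
  haveI : IsScalarTower R A B := IsScalarTower.of_algebraMap_eq' rfl
  haveI : Algebra.IsIntegral R A := ⟨hf⟩
  exact isIntegral_trans (R := R) (A := A) x hx

/-- Polynomials over an integral extension. -/
theorem mv_integral {O τ : Type} [CommRing O] (hO : (Int.castRingHom O).IsIntegral) :
    (MvPolynomial.map (Int.castRingHom O) : MvPolynomial τ ℤ →+* MvPolynomial τ O).IsIntegral := by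
  intro p
  induction p using MvPolynomial.induction_on with
  | C o =>
    obtain ⟨q, hq, hq0⟩ := hO o
    refine ⟨q.map C, hq.map C, ?_⟩
    rw [Polynomial.eval₂_map]
    have h1 : (MvPolynomial.map (Int.castRingHom O) : MvPolynomial τ ℤ →+* MvPolynomial τ O).comp
        (C : ℤ →+* MvPolynomial τ ℤ) = (C : O →+* MvPolynomial τ O).comp (Int.castRingHom O) :=
      RingHom.ext_int _ _
    rw [h1, ← Polynomial.hom_eval₂, hq0, map_zero]
  | add p q hp hq => exact RingHom.IsIntegralElem.add _ hp hq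
  | mul_X p i hp =>
    refine RingHom.IsIntegralElem.mul _ hp ?_
    have h1 : (X i : MvPolynomial τ O) =
        (MvPolynomial.map (Int.castRingHom O) : MvPolynomial τ ℤ →+* MvPolynomial τ O) (X i) := by
      rw [map_X]
    rw [h1]
    exact RingHom.isIntegralElem_map _

theorem ring_integral {O ι : Type} [CommRing O] [Fintype ι] (ω : Module.Basis ι ℤ O) :
    (Int.castRingHom O).IsIntegral := by
  haveI : Module.Finite ℤ O := Module.Finite.of_basis ω
  intro x
  have h1 : IsIntegral ℤ x := Algebra.IsIntegral.isIntegral x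
  exact h1

end general

theorem t_NRM1 : S_NRM1 := by
  intro O ι σ _ _ _ _ ω Δ hΔ
  classical
  have hO := ring_integral ω
  let f : MvPolynomial (σ × ι) ℤ →+* MvPolynomial (σ × ι) O := MvPolynomial.map (Int.castRingHom O)
  let θ : MvPolynomial σ ℤ →+* MvPolynomial (σ × ι) O :=
    eval₂Hom (Int.castRingHom _) (fun s => ∑ i, X (s, i) * C (ω i))
  -- the substitution is injective on `Δ`
  have hθ : θ Δ ≠ 0 := by
    intro h0
    apply hΔ
    apply MvPolynomial.funext
    intro n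
    rw [map_zero]
    let Θ : MvPolynomial (σ × ι) O →+* O :=
      eval₂Hom (RingHom.id O) (fun p => ((n p.1 * ω.repr 1 p.2 : ℤ) : O))
    have h1 : Θ.comp θ = (Int.castRingHom O).comp (eval n) := by
      apply MvPolynomial.ringHom_ext
      · intro r
        simp
      · intro s
        have h2 : (∑ i, ((ω.repr 1 i : ℤ) : O) * ω i) = 1 := by
          have h3 := ω.sum_repr 1
          simpa only [zsmul_eq_mul] using h3
        have h3 : Θ (θ (X s)) = ∑ i, ((n s * ω.repr 1 i : ℤ) : O) * ω i := by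
          simp [Θ, θ]
        rw [RingHom.comp_apply, h3]
        have h4 : ∑ i, ((n s * ω.repr 1 i : ℤ) : O) * ω i =
            (n s : O) * ∑ i, ((ω.repr 1 i : ℤ) : O) * ω i := by
          rw [Finset.mul_sum]
          refine Finset.sum_congr rfl fun i _ => ?_
          push_cast
          ring
        rw [h4, h2]
        simp
    have h2 : (Θ.comp θ) Δ = 0 := by rw [RingHom.comp_apply, h0, map_zero]
    rw [h1] at h2
    have h3 : ((eval n Δ : ℤ) : O) = 0 := h2
    exact_mod_cast h3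
  obtain ⟨Δ', hΔ'0, t, ht⟩ := exists_mult f (θ Δ) hθ (mv_integral hO (θ Δ))
  refine ⟨Δ', hΔ'0, ?_⟩
  intro k _ φ B hB
  let Ψ : MvPolynomial (σ × ι) O →+* k := eval₂Hom φ (fun p => ((B p : ℤ) : k))
  have h1 : Ψ.comp θ = eval₂Hom (Int.castRingHom k) (fun s => φ (∑ i, B (s, i) • ω i)) := by
    apply MvPolynomial.ringHom_ext
    · intro r
      simp
    · intro s
      simp [Ψ, θ, zsmul_eq_mul]
  have h2 : Ψ (θ Δ) = 0 := by
    have h3 := congrArg (fun g => g Δ) h1
    have h4 : Ψ (θ Δ) = eval₂Hom (Int.castRingHom k) (fun s => φ (∑ i, B (s, i) • ω i)) Δ := h3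
    rw [h4]
    exact hB
  have h3 : Ψ.comp f = (Int.castRingHom k).comp (eval B) := by
    apply MvPolynomial.ringHom_ext
    · intro r
      simp [Ψ, f]
    · intro s
      simp [Ψ, f]
  have h4 : Ψ (f Δ') = ((eval B Δ' : ℤ) : k) := by
    have h5 := congrArg (fun g => g Δ') h3
    exact h5
  rw [← h4, ht, map_mul, h2, mul_zero]

theorem t_NRM2 : S_NRM2 := by
  intro O ι σ _ _ _ _ ω i₀ g hg d hd
  classical
  have hO := ring_integral ω
  -- the multiple of `d ω i₀`
  obtain ⟨δ, hδ1, β, hβ⟩ : ∃ δ : ℕ, 1 ≤ δ ∧ ∃ β : O, (δ : O) = β * ((d : O) * ω i₀) := by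
    have hd0 : (d : O) ≠ 0 := by
      rw [Nat.cast_ne_zero]
      omega
    obtain ⟨m, hm, t, ht⟩ := exists_mult (Int.castRingHom O) ((d : O) * ω i₀)
      (mul_ne_zero hd0 (ω.ne_zero i₀)) (hO _)
    have ht' : (m : O) = t * ((d : O) * ω i₀) := ht
    rcases le_total 0 m with h | h
    · obtain ⟨a, rfl⟩ := Int.eq_ofNat_of_zero_le h
      refine ⟨a, by omega, t, ?_⟩
      rw [← ht']
      simp
    · obtain ⟨a, ha⟩ := Int.eq_ofNat_of_zero_le (Int.neg_nonneg_of_nonpos h)
      refine ⟨a, by omega, -t, ?_⟩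
      rw [neg_mul, ← ht']
      have h2 : ((-m : ℤ) : O) = ((a : ℤ) : O) := by rw [ha]
      push_cast at h2
      exact h2.symm
  let τ : Type := (σ × ι) ⊕ {i : ι // i ≠ i₀}
  let f : MvPolynomial τ ℤ →+* MvPolynomial τ O := MvPolynomial.map (Int.castRingHom O)
  let θ : MvPolynomial σ ℤ →+* MvPolynomial τ O :=
    eval₂Hom (Int.castRingHom _) (fun s => ∑ i, X (Sum.inl (s, i)) * C (ω i))
  let gS : Polynomial (MvPolynomial τ O) := g.map θ
  have hgS : gS.Monic := hg.map θ
  let y₀ : MvPolynomial τ O := ∑ i : {i : ι // i ≠ i₀}, (d : MvPolynomial τ O) * X (Sum.inr i) *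
    C (ω i.1)
  let Z : AdjoinRoot gS := AdjoinRoot.of gS (C β) * (AdjoinRoot.root gS - AdjoinRoot.of gS y₀)
  have hroot : (AdjoinRoot.of gS).IsIntegralElem (AdjoinRoot.root gS) :=
    ⟨gS, hgS, AdjoinRoot.eval₂_root gS⟩
  have hZ : ((AdjoinRoot.of gS).comp f).IsIntegralElem Z := by
    apply trans_elem f _ (mv_integral hO)
    exact RingHom.IsIntegralElem.mul _ (RingHom.isIntegralElem_map _)
      (RingHom.IsIntegralElem.sub _ hroot (RingHom.isIntegralElem_map _))
  obtain ⟨g', hg', hg'0⟩ := hZ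
  refine ⟨δ, g', hδ1, hg', ?_⟩
  intro k _ φ B c hB
  let b : τ → ℤ := Sum.elim B fun i : {i : ι // i ≠ i₀} => c i
  let Ψ : MvPolynomial τ O →+* k := eval₂Hom φ (fun p => ((b p : ℤ) : k))
  let t : k := (d : k) * φ (∑ i, c i • ω i)
  have h1 : Ψ.comp θ = eval₂Hom (Int.castRingHom k) (fun s => φ (∑ i, B (s, i) • ω i)) := by
    apply MvPolynomial.ringHom_ext
    · intro r
      simp
    · intro s
      simp [Ψ, θ, b, zsmul_eq_mul]
  have h2 : gS.eval₂ Ψ t = 0 := by
    change (g.map θ).eval₂ Ψ t = 0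
    rw [Polynomial.eval₂_map, h1, ← Polynomial.eval_map]
    exact hB
  let Ψ' : AdjoinRoot gS →+* k := AdjoinRoot.lift Ψ t h2
  have hof : ∀ a, Ψ' (AdjoinRoot.of gS a) = Ψ a := fun a => AdjoinRoot.lift_of h2
  have hrt : Ψ' (AdjoinRoot.root gS) = t := AdjoinRoot.lift_root h2
  have hZv : Ψ' Z = ((δ * c i₀ : ℤ) : k) := by
    change Ψ' (AdjoinRoot.of gS (C β) * (AdjoinRoot.root gS - AdjoinRoot.of gS y₀)) = _
    rw [map_mul, map_sub, hof, hof, hrt]
    have hy : Ψ y₀ = ∑ i : {i : ι // i ≠ i₀}, (d : k) * (c i.1 : k) * φ (ω i.1) := by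
      simp [Ψ, y₀, b]
    have ht2 : t = (d : k) * (c i₀ : k) * φ (ω i₀) +
        ∑ i : {i : ι // i ≠ i₀}, (d : k) * (c i.1 : k) * φ (ω i.1) := by
      change (d : k) * φ (∑ i, c i • ω i) = _
      have h3 : (d : k) * φ (∑ i, c i • ω i) = ∑ i, (d : k) * (c i : k) * φ (ω i) := by
        rw [map_sum, Finset.mul_sum]
        refine Finset.sum_congr rfl fun i _ => ?_
        rw [zsmul_eq_mul, map_mul, map_intCast, mul_assoc]
      rw [h3, ← Fintype.sum_subtype_add_sum_subtype (fun i => i ≠ i₀)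
        (fun i => (d : k) * (c i : k) * φ (ω i)), add_comm]
      congr 1
      have h4 : ∀ x : {i : ι // ¬ i ≠ i₀}, x.1 = i₀ := fun x => not_not.1 x.2
      rw [Fintype.sum_eq_single (⟨i₀, by simp⟩ : {i : ι // ¬ i ≠ i₀})]
      intro x hx
      exact absurd (Subtype.ext (h4 x)) hx
    have hC : Ψ (C β) = φ β := by simp [Ψ]
    rw [hy, ht2, add_sub_cancel_right, hC]
    have h5 : φ β * ((d : k) * (c i₀ : k) * φ (ω i₀)) =
        (c i₀ : k) * φ (β * ((d : O) * ω i₀)) := by
      rw [map_mul, map_mul, map_natCast]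
      ring
    rw [h5, ← hβ, map_natCast]
    push_cast
    ring
  have h3 : (Ψ'.comp ((AdjoinRoot.of gS).comp f)) =
      (Int.castRingHom k).comp (eval₂Hom (Int.castRingHom ℤ) b) := by
    apply MvPolynomial.ringHom_ext
    · intro r
      rw [RingHom.comp_apply, RingHom.comp_apply, hof]
      simp [Ψ, f]
    · intro s
      rw [RingHom.comp_apply, RingHom.comp_apply, hof]
      simp [Ψ, f]
  have h4 := congrArg Ψ' hg'0
  rw [Polynomial.hom_eval₂, map_zero, hZv, h3] at h4
  change (((g'.map (eval₂Hom (Int.castRingHom ℤ) b)).eval (δ * c i₀ : ℤ) : ℤ) : k) = 0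
  have h5 : (((g'.map (eval₂Hom (Int.castRingHom ℤ) b)).eval (δ * c i₀ : ℤ) : ℤ) : k) =
      Int.castRingHom k ((g'.map (eval₂Hom (Int.castRingHom ℤ) b)).eval (δ * c i₀ : ℤ)) := rfl
  rw [h5, Polynomial.eval_map, Polynomial.hom_eval₂]
  exact h4

end Pool.Agent.K3h41.ND
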